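import Pool.Agent.Helper69.MC.StB

set_option autoImplicit false

namespace Pool.Agent.Helper15.MC

open Set Topology Filter MeasureTheory
open Pool.Agent.Helper31.CY Pool.Agent.Helper69.MF Pool.Agent.Helper69.MC

theorem hPGL : StPGL := by
  intro N g hN hg hgl
  have hNR : (0 : ℝ) < N := by exact_mod_cast hN
  let c : ℕ → unitInterval → unitInterval := fun k s =>
    Set.projIcc (0 : ℝ) 1 zero_le_one ((N : ℝ) * (s : ℝ) - k)
  have hc : ∀ k, Continuous (c k) := fun k => continuous_projIcc.comp (by fun_prop)
  refine ⟨fun s => g 0 0 + ∑ k ∈ Finset.range N, (g k (c k s) - g k 0), ?_, ?_⟩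
  · refine continuous_const.add (continuous_finset_sum _ fun k _ => ?_)
    exact ((hg k).comp (hc k)).sub continuous_const
  · intro k hk s τ hs
    have hs' : (N : ℝ) * (s : ℝ) = k + (τ : ℝ) := by
      rw [hs]; field_simp
    have hτ0 : (0 : ℝ) ≤ τ := τ.2.1
    have hτ1 : (τ : ℝ) ≤ 1 := τ.2.2
    have h1 : ∀ j, j < k → c j s = 1 := by
      intro j hj
      have hj' : (j : ℝ) + 1 ≤ k := by exact_mod_cast hj
      have : (1 : ℝ) ≤ (N : ℝ) * (s : ℝ) - j := by rw [hs']; linarith
      exact Set.projIcc_of_right_le zero_le_one this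
    have h2 : c k s = τ := by
      have : (N : ℝ) * (s : ℝ) - k = (τ : ℝ) := by rw [hs']; ring
      change Set.projIcc (0 : ℝ) 1 zero_le_one ((N : ℝ) * (s : ℝ) - k) = τ
      rw [this]
      exact Set.projIcc_val zero_le_one τ
    have h3 : ∀ j, k < j → c j s = 0 := by
      intro j hj
      have hj' : (k : ℝ) + 1 ≤ j := by exact_mod_cast hj
      have : (N : ℝ) * (s : ℝ) - j ≤ 0 := by rw [hs']; linarith
      exact Set.projIcc_of_le_left zero_le_one this
    have htel : ∀ j, j ≤ k → ∑ i ∈ Finset.range j, (g i (c i s) - g i 0) = g j 0 - g 0 0 := by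
      intro j
      induction j with
      | zero => intro _; simp
      | succ j ih =>
        intro hj
        rw [Finset.sum_range_succ, ih (by omega), h1 j (by omega), hgl j (by omega)]
        abel
    have hsum : ∑ j ∈ Finset.range N, (g j (c j s) - g j 0) =
        ∑ j ∈ Finset.range (k + 1), (g j (c j s) - g j 0) := by
      symm
      refine Finset.sum_subset (fun j hj => ?_) (fun j hj hj' => ?_)
      · rw [Finset.mem_range] at hj ⊢; omega
      · rw [Finset.mem_range] at hj hj'
        rw [h3 j (by omega)]; simp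
    change g 0 0 + ∑ j ∈ Finset.range N, (g j (c j s) - g j 0) = g k τ
    rw [hsum, Finset.sum_range_succ, htel k le_rfl, h2]
    abel

end Pool.Agent.Helper15.MC
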